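import Pool.Agent.V11261.GK.Grp
import Pool.Agent.V11261.HG.Final

set_option autoImplicit false
set_option linter.unusedVariables false
set_option linter.unusedSectionVars false

universe u v w

namespace Pool.Agent.V11261.GK

section

variable {E : Type u} [Field E] {σ τ : Type} [Fintype σ] [DecidableEq σ] [Fintype τ]
  [DecidableEq τ] {p : ℕ} [Fact p.Prime] [CharP E p] (A : τ → τ → E) (W : σ → τ → E)
  (V : ValuationSubring E)

/-- The vectors. -/
def vec (p : ℕ) (A : τ → τ → E) (W : σ → τ → E) (n : σ → ℕ) (s : Σ j, Fin (n j)) : τ → E :=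
  (Ph p A)^[s.2.1] (W s.1)

/-- The lattice. -/
def Sp (p : ℕ) (A : τ → τ → E) (W : σ → τ → E) (V : ValuationSubring E) (n : σ → ℕ) :
    Submodule V (τ → E) := Submodule.span V (Set.range (vec p A W n))

lemma iter_sum {ι : Type*} (s : Finset ι) (c : ι → E) (v : ι → τ → E) (t : ℕ) :
    (Ph p A)^[t] (∑ i ∈ s, c i • v i) = ∑ i ∈ s, c i ^ p ^ t • (Ph p A)^[t] (v i) := by
  induction t with
  | zero =>
    rw [Function.iterate_zero_apply]
    refine Finset.sum_congr rfl fun i _ => ?_
    rw [pow_zero, pow_one, Function.iterate_zero_apply]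
  | succ t ih =>
    rw [Function.iterate_succ_apply', ih, Ph_sum]
    refine Finset.sum_congr rfl fun i _ => ?_
    rw [Ph_smul, Function.iterate_succ_apply', pow_succ, pow_mul]

variable {A W V}

omit [Fintype τ] [DecidableEq τ] in
lemma smul_mem' {N : Submodule V (τ → E)} {c : E} (hc : c ∈ V) {x : τ → E} (hx : x ∈ N) :
    c • x ∈ N := N.smul_mem (⟨c, hc⟩ : V) hx

lemma mem_Sp {n : σ → ℕ} {j : σ} {a : ℕ} (h : a < n j) : (Ph p A)^[a] (W j) ∈ Sp p A W V n :=
  Submodule.subset_span ⟨⟨j, ⟨a, h⟩⟩, rfl⟩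

lemma Sp_stable (n : σ → ℕ) (h : ∀ j, (Ph p A)^[n j] (W j) ∈ Sp p A W V n)
    {x : τ → E} (hx : x ∈ Sp p A W V n) : Ph p A x ∈ Sp p A W V n := by
  unfold Sp at hx
  induction hx using Submodule.span_induction with
  | mem x hx =>
    obtain ⟨s, rfl⟩ := hx
    unfold vec
    rw [← Function.iterate_succ_apply' (Ph p A)]
    by_cases hs : s.2.1 + 1 < n s.1
    · exact mem_Sp hs
    · have h1 : s.2.1 + 1 = n s.1 := by have := s.2.2; omega
      rw [Nat.succ_eq_add_one, h1]
      exact h s.1
  | zero => rw [Ph_zero]; exact Submodule.zero_mem _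
  | add x y _ _ hx hy => rw [Ph_add]; exact Submodule.add_mem _ hx hy
  | smul c x _ hx =>
    have h1 : c • x = (c : E) • x := rfl
    rw [h1, Ph_smul]
    exact smul_mem' (pow_mem c.2 _) hx

lemma Sp_full (n : σ → ℕ) (h : ∀ j, (Ph p A)^[n j] (W j) ∈ Sp p A W V n) (a : ℕ) (j : σ) :
    (Ph p A)^[a] (W j) ∈ Sp p A W V n := by
  induction a with
  | zero =>
    by_cases h0 : 0 < n j
    · exact mem_Sp h0
    · have h1 := h j
      rw [Nat.eq_zero_of_not_pos h0] at h1
      exact h1
  | succ a ih => rw [Function.iterate_succ_apply']; exact Sp_stable n h ih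

/-- The lattice has a basis. -/
theorem exists_basis (n0 : σ → ℕ) (h0 : ∀ j, (Ph p A)^[n0 j] (W j) ∈ Sp p A W V n0) :
    ∃ n : σ → ℕ, LinearIndependent E (vec p A W n) ∧
      ∀ j, ∃ c : (Σ j, Fin (n j)) → E, (∀ s, c s ∈ V) ∧
        (Ph p A)^[n j] (W j) = ∑ s, c s • (Ph p A)^[s.2.1] (W s.1) := by
  classical
  have hex : ∃ N, ∃ n : σ → ℕ, (∀ a j, (Ph p A)^[a] (W j) ∈ Sp p A W V n) ∧ ∑ j, n j = N :=
    ⟨_, n0, Sp_full n0 h0, rfl⟩
  obtain ⟨n, hn, hN⟩ := Nat.find_spec hex
  have hmin : ∀ n' : σ → ℕ, (∀ a j, (Ph p A)^[a] (W j) ∈ Sp p A W V n') →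
      ∑ j, n j ≤ ∑ j, n' j := fun n' h' => by
    rw [hN]
    exact Nat.find_min' hex ⟨n', h', rfl⟩
  refine ⟨n, ?_, ?_⟩
  · by_contra hli
    obtain ⟨g, hg, i0, hi0⟩ := Fintype.not_linearIndependent_iff.1 hli
    obtain ⟨s0, -, hs0, hs0'⟩ := Pool.Agent.V11261.HG.val_exists_min V g Finset.univ
      ⟨i0, Finset.mem_univ _, hi0⟩
    let c : (Σ j, Fin (n j)) → E := fun s => g s / g s0
    have hcV : ∀ s, c s ∈ V := fun s => hs0' s (Finset.mem_univ _)
    have hc0 : c s0 = 1 := div_self hs0
    have hcsum : ∑ s, c s • vec p A W n s = 0 := by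
      have h1 : ∑ s, c s • vec p A W n s = (g s0)⁻¹ • ∑ s, g s • vec p A W n s := by
        rw [Finset.smul_sum]
        refine Finset.sum_congr rfl fun s _ => ?_
        rw [smul_smul]
        congr 1
        change g s / g s0 = _
        rw [div_eq_mul_inv, mul_comm]
      rw [h1, hg, smul_zero]
    let U : Finset (Σ j, Fin (n j)) := Finset.univ.filter fun s => V.valuation (c s) = 1
    let t : (Σ j, Fin (n j)) → ℕ := fun s => n s.1 - 1 - s.2.1
    obtain ⟨s1, hs1U, hs1⟩ := Finset.exists_min_image U t ⟨s0, Finset.mem_filter.2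
      ⟨Finset.mem_univ _, by rw [hc0, map_one]⟩⟩
    have hs1v : V.valuation (c s1) = 1 := (Finset.mem_filter.1 hs1U).2
    obtain ⟨j1, a1⟩ := s1
    let T := t ⟨j1, a1⟩
    have hT : T = n j1 - 1 - a1.1 := rfl
    have ha1 : a1.1 < n j1 := a1.2
    let top : τ → E := (Ph p A)^[n j1 - 1] (W j1)
    let n' : σ → ℕ := Function.update n j1 (n j1 - 1)
    have hn'1 : n' j1 = n j1 - 1 := Function.update_self ..
    have hn'2 : ∀ j, j ≠ j1 → n' j = n j := fun j hj => Function.update_of_ne hj ..
    have hgen : ∀ s : (Σ j, Fin (n j)), vec p A W n s ∈ Sp p A W V n' ∨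
        vec p A W n s = top := by
      intro s
      obtain ⟨j, a⟩ := s
      by_cases hj : j = j1
      · subst hj
        by_cases ha : a.1 < n j - 1
        · left
          exact mem_Sp (by rw [hn'1]; exact ha)
        · right
          have h1 : a.1 = n j - 1 := by have := a.2; omega
          change (Ph p A)^[a.1] (W j) = (Ph p A)^[n j - 1] (W j)
          rw [h1]
      · left
        exact mem_Sp (by rw [hn'2 j hj]; exact a.2)
    have hdec : ∀ x ∈ Sp p A W V n, ∃ lam ∈ V, x - lam • top ∈ Sp p A W V n' := by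
      intro x hx
      unfold Sp at hx
      induction hx using Submodule.span_induction with
      | mem x hx =>
        obtain ⟨s, rfl⟩ := hx
        rcases hgen s with h | h
        · exact ⟨0, V.zero_mem, by rw [zero_smul, sub_zero]; exact h⟩
        · exact ⟨1, V.one_mem, by rw [one_smul, h, sub_self]; exact Submodule.zero_mem _⟩
      | zero => exact ⟨0, V.zero_mem, by rw [zero_smul, sub_zero]; exact Submodule.zero_mem _⟩
      | add x y _ _ hx hy =>
        obtain ⟨l1, h1, h2⟩ := hx
        obtain ⟨l2, h3, h4⟩ := hy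
        refine ⟨l1 + l2, V.add_mem _ _ h1 h3, ?_⟩
        have h5 : x + y - (l1 + l2) • top = (x - l1 • top) + (y - l2 • top) := by
          rw [add_smul]; abel
        rw [h5]
        exact Submodule.add_mem _ h2 h4
      | smul r x _ hx =>
        obtain ⟨l1, h1, h2⟩ := hx
        refine ⟨(r : E) * l1, V.mul_mem _ _ r.2 h1, ?_⟩
        have h5 : r • x - ((r : E) * l1) • top = (r : E) • (x - l1 • top) := by
          rw [smul_sub, smul_smul]
          rfl
        rw [h5]
        exact smul_mem' r.2 h2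
    have hK : ∀ s : (Σ j, Fin (n j)), s ≠ ⟨j1, a1⟩ → ∃ mu : E, V.valuation mu < 1 ∧
        c s ^ p ^ T • (Ph p A)^[T] (vec p A W n s) - mu • top ∈ Sp p A W V n' := by
      intro s hs
      have hvs : (Ph p A)^[T] (vec p A W n s) = (Ph p A)^[T + s.2.1] (W s.1) := by
        unfold vec
        rw [← Function.iterate_add_apply]
      rw [hvs]
      by_cases hlt : T + s.2.1 < n s.1
      · refine ⟨0, by rw [map_zero]; exact zero_lt_one, ?_⟩
        rw [zero_smul, sub_zero]
        refine smul_mem' (pow_mem (hcV s) _) (mem_Sp ?_)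
        by_cases hj : s.1 = j1
        · obtain ⟨j, a⟩ := s
          change j = j1 at hj
          subst hj
          rw [hn'1]
          change T + a.1 < n j at hlt
          change T + a.1 < n j - 1
          have h1 : a.1 ≠ a1.1 := by
            intro h
            apply hs
            congr 1
            exact Fin.ext h
          omega
        · rw [hn'2 _ hj]
          exact hlt
      · have h1 : t s < T := by
          have h2 := s.2.2
          change n s.1 - 1 - s.2.1 < T
          omega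
        have h2 : V.valuation (c s) ≠ 1 := by
          intro h
          have h3 := hs1 s (Finset.mem_filter.2 ⟨Finset.mem_univ _, h⟩)
          exact absurd h1 (not_lt.2 h3)
        have h3 : V.valuation (c s) < 1 :=
          lt_of_le_of_ne ((ValuationSubring.valuation_le_one_iff _ _).2 (hcV s)) h2
        obtain ⟨lam, hlam, hx⟩ := hdec _ (hn (T + s.2.1) s.1)
        refine ⟨c s ^ p ^ T * lam, ?_, ?_⟩
        · rw [map_mul, map_pow]
          have h4 : V.valuation (c s) ^ p ^ T < 1 :=
            pow_lt_one₀ zero_le h3 (pow_pos (Fact.out : p.Prime).pos _).ne'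
          exact mul_lt_one_of_lt_of_le h4 ((ValuationSubring.valuation_le_one_iff _ _).2 hlam)
        · have h5 : c s ^ p ^ T • (Ph p A)^[T + s.2.1] (W s.1) - (c s ^ p ^ T * lam) • top =
              c s ^ p ^ T • ((Ph p A)^[T + s.2.1] (W s.1) - lam • top) := by
            rw [smul_sub, smul_smul]
          rw [h5]
          exact smul_mem' (pow_mem (hcV s) _) hx
    have hsumK : ∀ D : Finset (Σ j, Fin (n j)), (∀ s ∈ D, s ≠ ⟨j1, a1⟩) →
        ∃ mu : E, V.valuation mu < 1 ∧
          ∑ s ∈ D, c s ^ p ^ T • (Ph p A)^[T] (vec p A W n s) - mu • top ∈ Sp p A W V n' := by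
      intro D hD
      induction D using Finset.induction_on with
      | empty =>
        exact ⟨0, by rw [map_zero]; exact zero_lt_one, by
          rw [Finset.sum_empty, zero_smul, sub_zero]; exact Submodule.zero_mem _⟩
      | insert a D ha ih =>
        obtain ⟨m1, h1, h2⟩ := ih fun s hs => hD s (Finset.mem_insert_of_mem hs)
        obtain ⟨m2, h3, h4⟩ := hK a (hD a (Finset.mem_insert_self _ _))
        refine ⟨m2 + m1, Valuation.map_add_lt _ h3 h1, ?_⟩
        rw [Finset.sum_insert ha, add_smul, add_sub_add_comm]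
        exact Submodule.add_mem _ h4 h2
    obtain ⟨mu, hmu, hmu'⟩ := hsumK (Finset.univ.erase ⟨j1, a1⟩) fun s hs =>
      Finset.ne_of_mem_erase hs
    have hzero : ∑ s, c s ^ p ^ T • (Ph p A)^[T] (vec p A W n s) = 0 := by
      rw [← iter_sum, hcsum]
      have hz : ∀ t : ℕ, (Ph p A)^[t] (0 : τ → E) = 0 := by
        intro t
        induction t with
        | zero => rfl
        | succ t ih => rw [Function.iterate_succ_apply', ih, Ph_zero]
      exact hz T
    have htop : (Ph p A)^[T] (vec p A W n ⟨j1, a1⟩) = top := by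
      change (Ph p A)^[T] ((Ph p A)^[a1.1] (W j1)) = (Ph p A)^[n j1 - 1] (W j1)
      rw [← Function.iterate_add_apply]
      congr 2
      omega
    rw [← Finset.add_sum_erase _ _ (Finset.mem_univ (⟨j1, a1⟩ : Σ j, Fin (n j))), htop] at hzero
    have h1 : (c ⟨j1, a1⟩ ^ p ^ T + mu) • top ∈ Sp p A W V n' := by
      have h2 : (c ⟨j1, a1⟩ ^ p ^ T + mu) • top =
          - (∑ s ∈ Finset.univ.erase ⟨j1, a1⟩, c s ^ p ^ T • (Ph p A)^[T] (vec p A W n s) -
            mu • top) := by
        rw [add_smul, eq_neg_iff_add_eq_zero]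
        rw [← hzero]
        abel
      rw [h2]
      exact Submodule.neg_mem _ hmu'
    have h2 : V.valuation (c ⟨j1, a1⟩ ^ p ^ T + mu) = 1 := by
      have h3 : V.valuation (c ⟨j1, a1⟩ ^ p ^ T) = 1 := by rw [map_pow, hs1v, one_pow]
      rw [Valuation.map_add_eq_of_lt_left _ (by rw [h3]; exact hmu), h3]
    have h3 : c ⟨j1, a1⟩ ^ p ^ T + mu ≠ 0 := by
      intro h
      rw [h, map_zero] at h2
      exact zero_ne_one h2
    have h4 : top ∈ Sp p A W V n' := by
      have h5 : (c ⟨j1, a1⟩ ^ p ^ T + mu)⁻¹ ∈ V := by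
        rw [← ValuationSubring.valuation_le_one_iff, map_inv₀, h2, inv_one]
      have h6 := smul_mem' h5 h1
      rwa [smul_smul, inv_mul_cancel₀ h3, one_smul] at h6
    have h5 : Sp p A W V n ≤ Sp p A W V n' := by
      unfold Sp
      rw [Submodule.span_le]
      rintro _ ⟨s, rfl⟩
      rcases hgen s with h | h
      · exact h
      · change vec p A W n s ∈ Sp p A W V n'
        rw [h]; exact h4
    have h6 := hmin n' fun a j => h5 (hn a j)
    have h7 : ∑ j, n' j < ∑ j, n j := by
      refine Finset.sum_lt_sum (fun j _ => ?_) ⟨j1, Finset.mem_univ _, by rw [hn'1]; omega⟩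
      by_cases hj : j = j1
      · rw [hj, hn'1]; omega
      · rw [hn'2 j hj]
    omega
  · intro j
    have h1 := hn (n j) j
    unfold Sp at h1
    obtain ⟨c, hc⟩ := (Submodule.mem_span_range_iff_exists_fun V).1 h1
    exact ⟨fun s => (c s : E), fun s => (c s).2, hc.symm⟩

end

end Pool.Agent.V11261.GK
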