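import Pool.Agent.V11261.GK.Inv
import Pool.Agent.V11261.GK.Exist
import Pool.Agent.V11261.LU.Main

set_option autoImplicit false
set_option linter.unusedVariables false
set_option linter.unusedSectionVars false

open MvPolynomial Pool.Agent.H519R3.RS

universe u v w

namespace Pool.Agent.V11261.GK

section ap

variable {S : Type u} {M : Type v} [CommRing S] [CommRing M] (ρ : S →+* M) {τ : Type w}
  [Fintype τ] [DecidableEq τ] {p : ℕ} [Fact p.Prime]

lemma ap_QQ (A : τ → τ → S) (i : τ) : Ap (fun _ => 1) (Finsupp.single i p) (QQ ρ p A i) := by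
  have hp : p.Prime := Fact.out
  intro m hm
  have h3 : QQ ρ p A i - monomial (Finsupp.single i p) 1 = - lin ρ (A i) := by
    unfold QQ
    rw [X_pow_eq_monomial]
    ring
  rw [h3, coeff_neg, neg_ne_zero] at hm
  unfold lin at hm
  rw [coeff_sum] at hm
  obtain ⟨k', -, hk'⟩ := Finset.exists_ne_zero_of_sum_ne_zero hm
  rw [coeff_C_mul, coeff_X] at hk'
  have h5 : Finsupp.single k' 1 = m := by
    by_contra h6
    rw [if_neg h6, mul_zero] at hk'
    exact hk' rfl
  have hw : ∀ (j : τ) (c : ℕ), wt (fun _ => 1) (Finsupp.single j c) = c := by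
    intro j c
    unfold wt
    rw [Finset.sum_eq_single j]
    · rw [Finsupp.single_eq_same, one_mul]
    · intro i _ hi
      rw [Finsupp.single_eq_of_ne hi, mul_zero]
    · intro h; exact absurd (Finset.mem_univ j) h
  rw [← h5, hw, hw]
  exact hp.one_lt

end ap

section map

variable {B : Type u} {E : Type v} [CommRing B] [CommRing E] (φ : B →+* E) {σ τ : Type}
  [Fintype σ] [DecidableEq σ] [Fintype τ] [DecidableEq τ] {p : ℕ}

lemma Ph_map (A : τ → τ → B) (v : τ → B) :
    Ph p (fun i l => φ (A i l)) (fun l => φ (v l)) = fun l => φ (Ph p A v l) := by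
  funext l
  unfold Ph
  rw [map_sum]
  refine Finset.sum_congr rfl fun i _ => ?_
  rw [map_mul, map_pow]

lemma iter_map (A : τ → τ → B) (v : τ → B) (a : ℕ) :
    (Ph p (fun i l => φ (A i l)))^[a] (fun l => φ (v l)) = fun l => φ ((Ph p A)^[a] v l) := by
  induction a with
  | zero => rfl
  | succ a ih => rw [Function.iterate_succ_apply', ih, Ph_map, Function.iterate_succ_apply']

/-- The map of the rings of the group schemes. -/
noncomputable def mm : MvPolynomial τ (MvPolynomial σ B) →+* MvPolynomial τ (MvPolynomial σ E) :=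
  MvPolynomial.map (MvPolynomial.map φ)

lemma mm_lin (v : τ → B) : mm φ (σ := σ) (lin (C : B →+* MvPolynomial σ B) v) =
    lin (C : E →+* MvPolynomial σ E) (fun l => φ (v l)) := by
  unfold lin mm
  rw [map_sum]
  refine Finset.sum_congr rfl fun l _ => ?_
  rw [map_mul, map_C, map_X, map_C]

lemma mm_tr (W : σ → τ → B) (f : MvPolynomial σ B) :
    mm φ (tr W f) = tr (fun j l => φ (W j l)) (MvPolynomial.map φ f) := by
  induction f using MvPolynomial.induction_on with
  | C a =>
    rw [tr_C, map_C, tr_C]
    unfold mm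
    rw [map_C, map_C]
  | add f g hf hg => rw [map_add, map_add, hf, hg, map_add, map_add]
  | mul_X f j hf =>
    rw [map_mul, map_mul, hf, map_mul, map_mul, map_X, tr_X, tr_X, map_add, mm_lin]
    congr 2
    unfold mm
    rw [map_C, map_X]

lemma mm_JJ (A : τ → τ → B) : (JJ (C : B →+* MvPolynomial σ B) p A).map (mm φ) ≤
    JJ (C : E →+* MvPolynomial σ E) p (fun i l => φ (A i l)) := by
  unfold JJ
  rw [Ideal.map_span, Ideal.span_le]
  rintro _ ⟨_, ⟨i, rfl⟩, rfl⟩
  refine Ideal.subset_span ⟨i, ?_⟩
  unfold QQ
  rw [map_sub, map_pow, mm_lin]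
  congr 2
  unfold mm
  rw [map_X]

/-- Invariance over a subring. -/
theorem inv_map [Fact p.Prime] (hφ : Function.Injective φ) (A : τ → τ → B) (W : σ → τ → B)
    (f : MvPolynomial σ B) :
    Inv p (fun i l => φ (A i l)) (fun j l => φ (W j l)) (MvPolynomial.map φ f) ↔ Inv p A W f := by
  have hp : p.Prime := Fact.out
  have h0 : mm φ (tr W f - C f) = tr (fun j l => φ (W j l)) (MvPolynomial.map φ f) -
      C (MvPolynomial.map φ f) := by
    rw [map_sub, mm_tr]
    congr 1
    unfold mm
    rw [map_C]
  unfold Inv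
  rw [← h0]
  constructor
  · intro h
    obtain ⟨r, hr, hr'⟩ := exists_red (q := fun _ => p) (fun i => ap_QQ (p := p)
      (C : B →+* MvPolynomial σ B) A i) (fun _ => hp.pos) (tr W f - C f)
    have h1 : mm φ r = 0 := by
      refine red_zero (q := fun _ => p) (fun i => ap_QQ (p := p)
        (C : E →+* MvPolynomial σ E) (fun i l => φ (A i l)) i) (fun _ => hp.pos) ?_ ?_
      · intro m hm j
        refine hr m ?_ j
        intro h2
        apply hm
        unfold mm
        rw [coeff_map, h2, map_zero]
      · have h2 : mm φ (tr W f - C f - r) ∈ JJ (C : E →+* MvPolynomial σ E) p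
            (fun i l => φ (A i l)) := mm_JJ φ A (Ideal.mem_map_of_mem _ hr')
        rw [map_sub] at h2
        have h3 := Ideal.sub_mem _ h h2
        rwa [sub_sub_cancel] at h3
    have h2 : r = 0 := by
      have h3 : Function.Injective (mm φ : MvPolynomial τ (MvPolynomial σ B) →+* _) :=
        MvPolynomial.map_injective _ (MvPolynomial.map_injective _ hφ)
      exact h3 (h1.trans (map_zero _).symm)
    rw [h2, sub_zero] at hr'
    exact hr'
  · intro h
    exact mm_JJ φ A (Ideal.mem_map_of_mem _ h)

end map

section data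

variable {k B E : Type u} [Field k] [CommRing B] [IsDomain B] [Algebra k B] [Field E]
  [Algebra k E] [Algebra B E] [IsScalarTower k B E] [IsFractionRing B E] {σ τ : Type}
  [Fintype σ] [DecidableEq σ] [Fintype τ] [DecidableEq τ] {p : ℕ} [Fact p.Prime]

omit [IsDomain B] in
/-- Integrality. -/
theorem exists_rel [IsNoetherianRing B] (A : τ → τ → B) (w : τ → B) :
    ∃ (a : ℕ) (c : Fin a → B), (Ph p A)^[a] w = ∑ b, c b • (Ph p A)^[b.1] w := by
  let M : ℕ →o Submodule B (τ → B) :=
    { toFun := fun a => Submodule.span B (Set.range fun b : Fin a => (Ph p A)^[b.1] w)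
      monotone' := by
        intro a a' h
        refine Submodule.span_mono ?_
        rintro _ ⟨b, rfl⟩
        exact ⟨⟨b.1, lt_of_lt_of_le b.2 h⟩, rfl⟩ }
  obtain ⟨a, ha⟩ := (monotone_stabilizes_iff_noetherian (R := B) (M := τ → B)).2 inferInstance M
  refine ⟨a, ?_⟩
  have h1 : (Ph p A)^[a] w ∈ M (a + 1) := Submodule.subset_span ⟨⟨a, Nat.lt_succ_self a⟩, rfl⟩
  rw [← ha (a + 1) (Nat.le_succ a)] at h1
  obtain ⟨c, hc⟩ := (Submodule.mem_span_range_iff_exists_fun B).1 h1
  exact ⟨c, hc.symm⟩

theorem data [Algebra.FiniteType k B] [CharP B p] (A : τ → τ → B) (W : σ → τ → B) :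
    Pool.Agent.V11261.AK.Data (E := E) (ring k p A W)
      (ring k p (fun i l => algebraMap B E (A i l)) (fun j l => algebraMap B E (W j l))) where
  iff f := inv_map (algebraMap B E) (IsFractionRing.injective B E) A W f
  const a := inv_C a
  int j := by
    have hp : p.Prime := Fact.out
    have hN : IsNoetherianRing B := Algebra.FiniteType.isNoetherianRing k B
    choose n c hc using fun j => exists_rel (p := p) A (W j)
    let c' : σ → (Σ j, Fin (n j)) → B := fun j s =>
      if h : s.1 = j then c j ⟨s.2.1, h ▸ s.2.2⟩ else 0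
    have hsum : ∀ (j : σ) {M : Type u} [AddCommMonoid M] [Module B M] (g : (Σ j, Fin (n j)) → M),
        ∑ s, c' j s • g s = ∑ b, c j b • g ⟨j, b⟩ := by
      intro j M _ _ g
      rw [Fintype.sum_sigma, Finset.sum_eq_single j]
      · refine Finset.sum_congr rfl fun b _ => ?_
        congr 1
        change (if h : j = j then c j ⟨b.1, _⟩ else 0) = c j b
        rw [dif_pos rfl]
      · intro i _ hi
        refine Finset.sum_eq_zero fun b _ => ?_
        have h1 : c' j ⟨i, b⟩ = 0 := dif_neg hi
        rw [h1, zero_smul]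
      · intro h; exact absurd (Finset.mem_univ j) h
    have h1 : Inv p A W (addP p n c' j) := by
      refine inv_addP ?_
      rw [hc j]
      exact (hsum j (fun s => (Ph p A)^[s.2.1] (W s.1))).symm
    have h2 : addP p n c' j = X j ^ p ^ n j - ∑ b, C (c j b) * X j ^ p ^ b.1 := by
      unfold addP
      congr 1
      have h3 := hsum j (fun s => (X s.1 ^ p ^ s.2.1 : MvPolynomial σ B))
      simp only [smul_eq_C_mul] at h3
      exact h3
    let P : Polynomial B := Polynomial.X ^ p ^ n j - ∑ b, Polynomial.C (c j b) *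
      Polynomial.X ^ p ^ b.1
    have hdeg : (∑ b : Fin (n j), Polynomial.C (c j b) * Polynomial.X ^ p ^ b.1).degree <
        ((p ^ n j : ℕ) : WithBot ℕ) := by
      refine lt_of_le_of_lt (Polynomial.degree_sum_le _ _) ?_
      refine (Finset.sup_lt_iff (WithBot.bot_lt_coe _)).2 fun b _ => ?_
      refine lt_of_le_of_lt (Polynomial.degree_C_mul_X_pow_le _ _) ?_
      exact_mod_cast Nat.pow_lt_pow_right hp.one_lt b.2
    refine ⟨P, ?_, ?_, ?_⟩
    · exact Polynomial.Monic.sub_of_left (Polynomial.monic_X_pow _)
        (by rw [Polynomial.degree_X_pow]; exact hdeg)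
    · have h3 : P.natDegree = p ^ n j := by
        apply Polynomial.natDegree_eq_of_degree_eq_some
        change (_ - _ : Polynomial B).degree = _
        rw [Polynomial.degree_sub_eq_left_of_degree_lt, Polynomial.degree_X_pow]
        rw [Polynomial.degree_X_pow]
        exact hdeg
      rw [h3]
      exact pow_pos hp.pos _
    · have h3 : Polynomial.aeval (X j : MvPolynomial σ B) P = addP p n c' j := by
        rw [h2]
        change Polynomial.aeval _ (_ - _) = _
        rw [map_sub, map_pow, Polynomial.aeval_X, map_sum]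
        congr 1
        refine Finset.sum_congr rfl fun b _ => ?_
        rw [map_mul, map_pow, Polynomial.aeval_X, Polynomial.aeval_C]
        rfl
      rw [h3]
      exact h1

end data

/-- Local uniformization of the quotients by group schemes of additive type. -/
theorem lu {k B : Type} [Field k] [CommRing B] [IsDomain B] [Algebra k B]
    [Algebra.FiniteType k B] (hE : Pool.Agent.V11261.LU.HasLU k (FractionRing B))
    {p : ℕ} [Fact p.Prime] [CharP B p] {σ τ : Type} [Fintype σ] [DecidableEq σ] [Fintype τ]
    [DecidableEq τ] (A : τ → τ → B) (W : σ → τ → B)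
    (P : Ideal (ring k p A W)) [P.IsPrime] (R : Type) [CommRing R]
    [IsLocalRing R] [Algebra (ring k p A W) R] [IsLocalization.AtPrime R P] : AdmitsLU R := by
  classical
  have hp : p.Prime := Fact.out
  let E := FractionRing B
  have hEp : CharP E p := charP_of_injective_algebraMap (IsFractionRing.injective B E) p
  have hN : IsNoetherianRing B := Algebra.FiniteType.isNoetherianRing k B
  refine (data (k := k) (E := E) A W).lu ?_ P R
  intro VE hVE
  choose n0 c0 hc0 using fun j => exists_rel (p := p) A (W j)
  obtain ⟨n, hv, hn⟩ := exists_basis (p := p) (A := fun i l => algebraMap B E (A i l))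
    (W := fun j l => algebraMap B E (W j l)) (V := VE) n0 (by
      intro j
      rw [iter_map, hc0]
      have h1 : (fun l => algebraMap B E ((∑ b, c0 j b • (Ph p A)^[b.1] (W j)) l)) =
          ∑ b, algebraMap B E (c0 j b) •
            (Ph p (fun i l => algebraMap B E (A i l)))^[b.1] (fun l => algebraMap B E (W j l)) := by
        funext l
        rw [Finset.sum_apply, Finset.sum_apply, map_sum]
        refine Finset.sum_congr rfl fun b _ => ?_
        rw [Pi.smul_apply, Pi.smul_apply, smul_eq_mul, smul_eq_mul, map_mul, iter_map]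
      rw [h1]
      refine Submodule.sum_mem _ fun b _ => smul_mem' (hVE _) ?_
      exact mem_Sp (W := fun j l => algebraMap B E (W j l)) b.2)
  choose c hcV hc using hn
  obtain ⟨C', h1, h2, h3, h4⟩ := Pool.Agent.V11261.LU.exists_base hE VE hVE
    (Finset.univ.image fun x : σ × (Σ j, Fin (n j)) => c x.1 x.2)
  refine ⟨C', h1, h2, h3, aeval (addP p n c), ?_, ?_⟩
  · exact aeval_inj (fun j => ap_addP n c j) (fun j => pow_pos hp.pos _)
  · exact fun f => chart hv hc (fun j s => h4 _ (Finset.mem_image.2
      ⟨(j, s), Finset.mem_univ _, rfl⟩) (hcV j s)) f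

end Pool.Agent.V11261.GK
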