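import Pool.Agent.V11261.GK.Tri

set_option autoImplicit false
set_option linter.unusedVariables false
set_option linter.unusedSectionVars false

open MvPolynomial

universe u v w

namespace Pool.Agent.V11261.GK

section defs

variable {S : Type u} {M : Type v} [CommRing S] [CommRing M] (ρ : S →+* M) {τ : Type w}
  [Fintype τ] [DecidableEq τ]

/-- The linear form with the coefficients `v`. -/
noncomputable def lin (v : τ → S) : MvPolynomial τ M := ∑ l, C (ρ (v l)) * X l

/-- The equations of the group scheme. -/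
noncomputable def QQ (p : ℕ) (A : τ → τ → S) (i : τ) : MvPolynomial τ M := X i ^ p - lin ρ (A i)

/-- The ideal of the group scheme. -/
noncomputable def JJ (p : ℕ) (A : τ → τ → S) : Ideal (MvPolynomial τ M) :=
  Ideal.span (Set.range (QQ ρ p A))

/-- The semilinear map. -/
def Ph (p : ℕ) (A : τ → τ → S) (v : τ → S) : τ → S := fun l => ∑ i, v i ^ p * A i l

omit [DecidableEq τ] in
lemma lin_add (v w : τ → S) : lin ρ (v + w) = lin ρ v + lin ρ w := by
  unfold lin
  rw [← Finset.sum_add_distrib]
  refine Finset.sum_congr rfl fun l _ => ?_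
  rw [Pi.add_apply, map_add, C_add, add_mul]

omit [DecidableEq τ] in
lemma lin_smul (c : S) (v : τ → S) : lin ρ (c • v) = C (ρ c) * lin ρ v := by
  unfold lin
  rw [Finset.mul_sum]
  refine Finset.sum_congr rfl fun l _ => ?_
  rw [Pi.smul_apply, smul_eq_mul, map_mul, C_mul, mul_assoc]

omit [DecidableEq τ] in
lemma lin_sum {ι : Type*} (s : Finset ι) (v : ι → τ → S) :
    lin ρ (∑ i ∈ s, v i) = ∑ i ∈ s, lin ρ (v i) := by
  classical
  induction s using Finset.induction_on with
  | empty =>
    rw [Finset.sum_empty, Finset.sum_empty]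
    unfold lin
    simp
  | insert a s ha ih => rw [Finset.sum_insert ha, Finset.sum_insert ha, lin_add, ih]

variable {p : ℕ} [Fact p.Prime]

lemma Ph_add [CharP S p] (A : τ → τ → S) (v w : τ → S) :
    Ph p A (v + w) = Ph p A v + Ph p A w := by
  funext l
  unfold Ph
  rw [Pi.add_apply, ← Finset.sum_add_distrib]
  refine Finset.sum_congr rfl fun i _ => ?_
  rw [Pi.add_apply, add_pow_char, add_mul]

omit [Fact p.Prime] in
lemma Ph_smul (A : τ → τ → S) (c : S) (v : τ → S) :
    Ph p A (c • v) = c ^ p • Ph p A v := by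
  funext l
  unfold Ph
  rw [Pi.smul_apply, smul_eq_mul, Finset.mul_sum]
  refine Finset.sum_congr rfl fun i _ => ?_
  rw [Pi.smul_apply, smul_eq_mul, mul_pow, mul_assoc]

lemma Ph_zero (A : τ → τ → S) : Ph p A 0 = 0 := by
  have hp : p.Prime := Fact.out
  funext l
  unfold Ph
  refine Finset.sum_eq_zero fun i _ => ?_
  rw [Pi.zero_apply, zero_pow hp.ne_zero, zero_mul]

lemma Ph_sum [CharP S p] {ι : Type*} (A : τ → τ → S) (s : Finset ι) (v : ι → τ → S) :
    Ph p A (∑ i ∈ s, v i) = ∑ i ∈ s, Ph p A (v i) := by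
  classical
  induction s using Finset.induction_on with
  | empty => rw [Finset.sum_empty, Finset.sum_empty, Ph_zero]
  | insert a s ha ih => rw [Finset.sum_insert ha, Finset.sum_insert ha, Ph_add, ih]

lemma Ph_single (A : τ → τ → S) (i : τ) : Ph p A (Pi.single i 1) = A i := by
  have hp : p.Prime := Fact.out
  funext l
  unfold Ph
  rw [Finset.sum_eq_single i]
  · rw [Pi.single_eq_same, one_pow, one_mul]
  · intro j _ hj
    rw [Pi.single_eq_of_ne hj, zero_pow hp.ne_zero, zero_mul]
  · intro h; exact absurd (Finset.mem_univ i) h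

lemma lin_pow [CharP M p] (A : τ → τ → S) (v : τ → S) :
    lin ρ v ^ p - lin ρ (Ph p A v) ∈ JJ ρ p A := by
  have h1 : lin ρ v ^ p - lin ρ (Ph p A v) = ∑ i, C (ρ (v i)) ^ p * QQ ρ p A i := by
    have hE : ExpChar (MvPolynomial τ M) p :=
      haveI : CharP (MvPolynomial τ M) p := inferInstance
      inferInstance
    have h2 : lin ρ v ^ p = ∑ i, C (ρ (v i)) ^ p * X i ^ p := by
      unfold lin
      rw [sum_pow_char p]
      refine Finset.sum_congr rfl fun i _ => ?_
      rw [mul_pow]
    have h3 : lin ρ (Ph p A v) = ∑ i, C (ρ (v i)) ^ p * lin ρ (A i) := by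
      have h4 : Ph p A v = ∑ i, v i ^ p • A i := by
        funext l
        rw [Finset.sum_apply]
        rfl
      rw [h4, lin_sum]
      refine Finset.sum_congr rfl fun i _ => ?_
      rw [lin_smul, map_pow, C_pow]
    rw [h2, h3, ← Finset.sum_sub_distrib]
    refine Finset.sum_congr rfl fun i _ => ?_
    rw [QQ]
    ring
  rw [h1]
  exact Ideal.sum_mem _ fun i _ => Ideal.mul_mem_left _ _ (Ideal.subset_span ⟨i, rfl⟩)

lemma lin_pow_iter [CharP M p] (A : τ → τ → S) (v : τ → S) (a : ℕ) :
    lin ρ v ^ p ^ a - lin ρ ((Ph p A)^[a] v) ∈ JJ ρ p A := by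
  have hE : ExpChar (MvPolynomial τ M) p :=
    haveI : CharP (MvPolynomial τ M) p := inferInstance
    inferInstance
  have hp : p.Prime := Fact.out
  induction a with
  | zero => rw [pow_zero, pow_one, Function.iterate_zero_apply, sub_self]; exact Ideal.zero_mem _
  | succ a ih =>
    have h1 := lin_pow ρ A ((Ph p A)^[a] v)
    rw [← Function.iterate_succ_apply' (Ph p A)] at h1
    have h2 : lin ρ v ^ p ^ (a + 1) - lin ρ ((Ph p A)^[a] v) ^ p ∈ JJ ρ p A := by
      rw [pow_succ, pow_mul, ← sub_pow_expChar]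
      exact Ideal.pow_mem_of_mem _ ih _ hp.pos
    have h3 := Ideal.add_mem _ h2 h1
    rwa [sub_add_sub_cancel] at h3

end defs

section field

variable {E : Type u} {M : Type v} [Field E] [CommRing M] (ρ : E →+* M) {τ : Type w}
  [Fintype τ] [DecidableEq τ] {p : ℕ} [Fact p.Prime] [CharP E p] [CharP M p]

/-- Independence of the reduced monomials in the vectors of a basis. -/
theorem basis_red (A : τ → τ → E) {κ : Type*} [Fintype κ] [DecidableEq κ]
    (b : Module.Basis κ E (τ → E)) (G : MvPolynomial κ M) (hG : Red (fun _ => p) G)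
    (h : aeval (fun k => lin ρ (b k)) G ∈ JJ ρ p A) : G = 0 := by
  have hp : p.Prime := Fact.out
  let β : (τ → E) → MvPolynomial κ M := fun v => ∑ k, C (ρ (b.repr v k)) * X k
  have hβsum : ∀ {ι : Type u} (s : Finset ι) (f : ι → τ → E),
      β (∑ i ∈ s, f i) = ∑ i ∈ s, β (f i) := by
    intro ι s f
    change ∑ k, C (ρ (b.repr (∑ i ∈ s, f i) k)) * X k = ∑ i ∈ s, ∑ k, C (ρ (b.repr (f i) k)) * X k
    rw [Finset.sum_comm]
    refine Finset.sum_congr rfl fun k _ => ?_
    rw [map_sum, Finsupp.finsetSum_apply, map_sum, map_sum, Finset.sum_mul]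
  have hβsum' : ∀ {ι : Type w} (s : Finset ι) (f : ι → τ → E),
      β (∑ i ∈ s, f i) = ∑ i ∈ s, β (f i) := by
    intro ι s f
    change ∑ k, C (ρ (b.repr (∑ i ∈ s, f i) k)) * X k = ∑ i ∈ s, ∑ k, C (ρ (b.repr (f i) k)) * X k
    rw [Finset.sum_comm]
    refine Finset.sum_congr rfl fun k _ => ?_
    rw [map_sum, Finsupp.finsetSum_apply, map_sum, map_sum, Finset.sum_mul]
  have hβsumk : ∀ (f : κ → τ → E), β (∑ i, f i) = ∑ i, β (f i) := by
    intro f
    change ∑ k, C (ρ (b.repr (∑ i, f i) k)) * X k = ∑ i, ∑ k, C (ρ (b.repr (f i) k)) * X k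
    rw [Finset.sum_comm]
    refine Finset.sum_congr rfl fun k _ => ?_
    rw [map_sum, Finsupp.finsetSum_apply, map_sum, map_sum, Finset.sum_mul]
  have hβsmul : ∀ (c : E) (v : τ → E), β (c • v) = C (ρ c) * β v := by
    intro c v
    change ∑ k, C (ρ (b.repr (c • v) k)) * X k = C (ρ c) * ∑ k, C (ρ (b.repr v k)) * X k
    rw [Finset.mul_sum]
    refine Finset.sum_congr rfl fun k _ => ?_
    rw [map_smul, Finsupp.smul_apply, smul_eq_mul, map_mul, C_mul, mul_assoc]
  have hβb : ∀ k, β (b k) = X k := by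
    intro k
    change ∑ k', C (ρ (b.repr (b k) k')) * X k' = X k
    rw [Finset.sum_eq_single k]
    · rw [b.repr_self, Finsupp.single_eq_same, map_one, C_1, one_mul]
    · intro k' _ hk
      rw [b.repr_self, Finsupp.single_eq_of_ne hk, map_zero, C_0, zero_mul]
    · intro h; exact absurd (Finset.mem_univ k) h
  let P' : κ → MvPolynomial κ M := fun k => X k ^ p - β (Ph p A (b k))
  let J' : Ideal (MvPolynomial κ M) := Ideal.span (Set.range P')
  have hβpow : ∀ v, β v ^ p - β (Ph p A v) ∈ J' := by
    intro v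
    have hE : ExpChar (MvPolynomial κ M) p :=
      haveI : CharP (MvPolynomial κ M) p := inferInstance
      inferInstance
    have h1 : β v ^ p = ∑ k, C (ρ (b.repr v k)) ^ p * X k ^ p := by
      change (∑ k, C (ρ (b.repr v k)) * X k) ^ p = _
      rw [sum_pow_char p]
      refine Finset.sum_congr rfl fun i _ => ?_
      rw [mul_pow]
    have h2 : β (Ph p A v) = ∑ k, C (ρ (b.repr v k)) ^ p * β (Ph p A (b k)) := by
      conv_lhs => rw [← b.sum_repr v]
      rw [Ph_sum, hβsumk]
      refine Finset.sum_congr rfl fun k _ => ?_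
      rw [Ph_smul, hβsmul, map_pow, C_pow]
    rw [h1, h2, ← Finset.sum_sub_distrib]
    refine Ideal.sum_mem _ fun k _ => ?_
    rw [← mul_sub]
    exact Ideal.mul_mem_left _ _ (Ideal.subset_span ⟨k, rfl⟩)
  let θ : MvPolynomial τ M →ₐ[M] MvPolynomial κ M := aeval fun l => β (Pi.single l 1)
  have hθlin : ∀ v, θ (lin ρ v) = β v := by
    intro v
    have h1 : v = ∑ l, v l • (Pi.single l 1 : τ → E) := by
      funext i
      rw [Finset.sum_apply, Finset.sum_eq_single i]
      · rw [Pi.smul_apply, Pi.single_eq_same, smul_eq_mul, mul_one]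
      · intro l _ hl
        rw [Pi.smul_apply, Pi.single_eq_of_ne (Ne.symm hl), smul_zero]
      · intro h; exact absurd (Finset.mem_univ i) h
    conv_rhs => rw [h1]
    rw [hβsum']
    unfold lin
    rw [map_sum]
    refine Finset.sum_congr rfl fun l _ => ?_
    rw [map_mul, hβsmul]
    congr 1
    · exact θ.commutes _
    · exact aeval_X _ _
  have hθJ : (JJ ρ p A).map θ ≤ J' := by
    unfold JJ
    rw [Ideal.map_span, Ideal.span_le]
    rintro _ ⟨_, ⟨i, rfl⟩, rfl⟩
    have h1 : θ (QQ ρ p A i) = β (Pi.single i 1) ^ p - β (Ph p A (Pi.single i 1)) := by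
      rw [QQ, map_sub, map_pow, hθlin, Ph_single]
      congr 2
      exact aeval_X _ _
    change θ (QQ ρ p A i) ∈ J'
    rw [h1]
    exact hβpow _
  have h1 : θ (aeval (fun k => lin ρ (b k)) G) = G := by
    have h2 : (θ.comp (aeval fun k => lin ρ (b k))) = AlgHom.id M _ := by
      apply MvPolynomial.algHom_ext
      intro k
      rw [AlgHom.comp_apply, aeval_X, hθlin, hβb]
      rfl
    exact DFunLike.congr_fun h2 G
  have h2 : G ∈ J' := by
    rw [← h1]
    exact hθJ (Ideal.mem_map_of_mem _ h)
  refine red_zero (ω := fun _ => 1) (q := fun _ => p) (P := P') ?_ (fun _ => hp.pos) hG h2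
  intro k m hm
  have h3 : P' k - monomial (Finsupp.single k p) 1 = - β (Ph p A (b k)) := by
    change X k ^ p - β (Ph p A (b k)) - _ = _
    rw [X_pow_eq_monomial]
    ring
  rw [h3, coeff_neg, neg_ne_zero] at hm
  have h4 : coeff m (β (Ph p A (b k))) =
      ∑ k', coeff m (C (ρ (b.repr (Ph p A (b k)) k')) * X k') := coeff_sum _ _ _
  rw [h4] at hm
  obtain ⟨k', -, hk'⟩ := Finset.exists_ne_zero_of_sum_ne_zero hm
  rw [coeff_C_mul, coeff_X'] at hk'
  have h5 : Finsupp.single k' 1 = m := by
    by_contra h6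
    rw [if_neg h6, mul_zero] at hk'
    exact hk' rfl
  have hw : ∀ (j : κ) (c : ℕ), wt (fun _ => 1) (Finsupp.single j c) = c := by
    intro j c
    unfold wt
    rw [Finset.sum_eq_single j]
    · rw [Finsupp.single_eq_same, one_mul]
    · intro i _ hi
      rw [Finsupp.single_eq_of_ne hi, mul_zero]
    · intro h; exact absurd (Finset.mem_univ j) h
  rw [← h5, hw, hw]
  exact hp.one_lt

/-- Independence of the reduced monomials in linearly independent vectors. -/
theorem indep_red (A : τ → τ → E) {S : Type*} [Fintype S] [DecidableEq S] {v : S → τ → E}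
    (hv : LinearIndependent E v) (G : MvPolynomial S M) (hG : Red (fun _ => p) G)
    (h : aeval (fun k => lin ρ (v k)) G ∈ JJ ρ p A) : G = 0 := by
  classical
  have hp : p.Prime := Fact.out
  have hr : LinearIndepOn E id (Set.range v) := hv.linearIndepOn_id
  let b := Module.Basis.extend hr
  have : Finite (hr.extend (Set.subset_univ _)) := Module.Finite.finite_basis b
  have : Fintype (hr.extend (Set.subset_univ _)) := Fintype.ofFinite _
  let ι : S → hr.extend (Set.subset_univ _) := fun s =>
    ⟨v s, hr.subset_extend (Set.subset_univ _) ⟨s, rfl⟩⟩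
  have hι : Function.Injective ι := fun s t hst => hv.injective (congrArg Subtype.val hst)
  have hb : ∀ s, b (ι s) = v s := fun s => Module.Basis.extend_apply_self hr _
  have h1 : rename ι G = 0 := by
    refine basis_red (p := p) ρ A b (rename ι G) ?_ ?_
    · intro m hm k
      obtain ⟨u, hu, hu0⟩ := coeff_rename_ne_zero _ _ _ hm
      rw [← hu]
      by_cases hk : k ∈ Set.range ι
      · obtain ⟨s, rfl⟩ := hk
        rw [Finsupp.mapDomain_apply hι]
        exact hG u hu0 s
      · rw [Finsupp.mapDomain_notin_range _ _ hk]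
        exact hp.pos
    · rw [aeval_rename]
      have h2 : ((fun k => lin ρ (b k)) ∘ ι) = fun s => lin ρ (v s) := by
        funext s
        change lin ρ (b (ι s)) = _
        rw [hb]
      rw [h2]
      exact h
  exact rename_injective ι hι (h1.trans (map_zero _).symm)

lemma digits (p : ℕ) (n x : ℕ) :
    ∑ a ∈ Finset.range n, (x / p ^ a % p) * p ^ a = x % p ^ n := by
  induction n with
  | zero => simp [Nat.mod_one]
  | succ n ih => rw [Finset.sum_range_succ, ih, Nat.mod_pow_succ, mul_comm (p ^ n)]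

/-- The kernel of the map to the group scheme. -/
theorem indep_pow (A : τ → τ → E) {σ : Type*} [Fintype σ] [DecidableEq σ] (W : σ → τ → E)
    (n : σ → ℕ) (hv : LinearIndependent E fun s : (Σ j, Fin (n j)) => (Ph p A)^[s.2.1] (W s.1))
    (G : MvPolynomial σ M) (hG : Red (fun j => p ^ n j) G)
    (h : aeval (fun j => lin ρ (W j)) G ∈ JJ ρ p A) : G = 0 := by
  classical
  have hp : p.Prime := Fact.out
  let S := Σ j, Fin (n j)
  let dig : (σ →₀ ℕ) → (S →₀ ℕ) := fun m => Finsupp.equivFunOnFinite.symm fun s =>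
    m s.1 / p ^ s.2.1 % p
  have hdig : ∀ m s, dig m s = m s.1 / p ^ s.2.1 % p := fun m s => rfl
  have hsum : ∀ m : σ →₀ ℕ, (∀ j, m j < p ^ n j) → ∀ j, m j = ∑ a : Fin (n j),
      dig m ⟨j, a⟩ * p ^ a.1 := by
    intro m hm j
    have h1 := digits p (n j) (m j)
    rw [Nat.mod_eq_of_lt (hm j), ← Fin.sum_univ_eq_sum_range
      (fun a => (m j / p ^ a % p) * p ^ a)] at h1
    exact h1.symm
  have hdinj : ∀ m m' : σ →₀ ℕ, (∀ j, m j < p ^ n j) → (∀ j, m' j < p ^ n j) →
      dig m = dig m' → m = m' := by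
    intro m m' hm hm' hd
    ext j
    rw [hsum m hm j, hsum m' hm' j, hd]
  let G' : MvPolynomial S M := ∑ m ∈ G.support, monomial (dig m) (coeff m G)
  have h1 : G' = 0 := by
    refine indep_red (p := p) ρ A hv G' ?_ ?_
    · intro m hm s
      change coeff m (∑ m ∈ G.support, monomial (dig m) (coeff m G)) ≠ 0 at hm
      rw [coeff_sum] at hm
      obtain ⟨d, hd, hd0⟩ := Finset.exists_ne_zero_of_sum_ne_zero hm
      rw [coeff_monomial] at hd0
      have h1 : dig d = m := by
        by_contra h2
        rw [if_neg h2] at hd0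
        exact hd0 rfl
      rw [← h1, hdig]
      exact Nat.mod_lt _ hp.pos
    · have h2 : aeval (fun s : S => lin ρ ((Ph p A)^[s.2.1] (W s.1))) G' -
          aeval (fun j => lin ρ (W j)) G ∈ JJ ρ p A := by
        conv in aeval (fun j => lin ρ (W j)) G => rw [G.as_sum]
        change aeval _ (∑ m ∈ G.support, monomial (dig m) (coeff m G)) - _ ∈ _
        rw [map_sum, map_sum, ← Finset.sum_sub_distrib]
        refine Ideal.sum_mem _ fun m hm => ?_
        rw [aeval_monomial, aeval_monomial, ← mul_sub]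
        refine Ideal.mul_mem_left _ _ ?_
        rw [Finsupp.prod_fintype _ _ (fun i => pow_zero _),
          Finsupp.prod_fintype _ _ (fun i => pow_zero _)]
        have h3 : (∏ j, lin ρ (W j) ^ m j : MvPolynomial τ M) =
            ∏ s : S, (lin ρ (W s.1) ^ p ^ s.2.1) ^ dig m s := by
          rw [Fintype.prod_sigma]
          refine Finset.prod_congr rfl fun j _ => ?_
          rw [hsum m (hG m (mem_support_iff.1 hm)) j, ← Finset.prod_pow_eq_pow_sum]
          refine Finset.prod_congr rfl fun a _ => ?_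
          rw [← pow_mul, mul_comm]
        rw [h3, ← Ideal.Quotient.eq, map_prod, map_prod]
        refine Finset.prod_congr rfl fun s _ => ?_
        rw [map_pow, map_pow]
        congr 1
        exact (Ideal.Quotient.eq.2 (lin_pow_iter ρ A (W s.1) s.2.1)).symm
      have h3 := Ideal.add_mem _ h2 h
      rwa [sub_add_cancel] at h3
  ext m
  rw [coeff_zero]
  by_contra hm
  have h2 : coeff (dig m) G' = coeff m G := by
    change coeff (dig m) (∑ m ∈ G.support, monomial (dig m) (coeff m G)) = _
    rw [coeff_sum, Finset.sum_eq_single m]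
    · rw [coeff_monomial, if_pos rfl]
    · intro d hd hdm
      rw [coeff_monomial, if_neg]
      intro h3
      exact hdm (hdinj _ _ (hG d (mem_support_iff.1 hd)) (hG m hm) h3)
    · intro h3
      exact absurd (mem_support_iff.2 hm) h3
  rw [h1, coeff_zero] at h2
  exact hm h2.symm

end field

end Pool.Agent.V11261.GK
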