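import Pool.Agent.V11261.GK.Grp
import Pool.Agent.V11261.TQ.Step

set_option autoImplicit false
set_option linter.unusedVariables false
set_option linter.unusedSectionVars false

open MvPolynomial

universe u v w

namespace Pool.Agent.V11261.GK

open Pool.Agent.V11261.TQ (cf mem_cf C_mem_cf X_mem_cf aeval_mem_cf)

section defs

variable {R : Type u} [CommRing R] {σ τ : Type} [Fintype σ] [DecidableEq σ] [Fintype τ]
  [DecidableEq τ]

/-- The translation `y ↦ y + W x`. -/
noncomputable def tr (W : σ → τ → R) :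
    MvPolynomial σ R →ₐ[R] MvPolynomial τ (MvPolynomial σ R) :=
  aeval fun j => C (X j) + lin (C : R →+* MvPolynomial σ R) (W j)

/-- Invariance. -/
def Inv (p : ℕ) (A : τ → τ → R) (W : σ → τ → R) (f : MvPolynomial σ R) : Prop :=
  tr W f - C f ∈ JJ (C : R →+* MvPolynomial σ R) p A

lemma tr_X (W : σ → τ → R) (j : σ) :
    tr W (X j) = C (X j) + lin (C : R →+* MvPolynomial σ R) (W j) := by
  rw [tr, aeval_X]

lemma tr_C (W : σ → τ → R) (a : R) : tr W (C a) = C (C a) := by
  rw [tr, aeval_C]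
  rfl

variable {p : ℕ} {A : τ → τ → R} {W : σ → τ → R}

lemma Inv.mul {f g : MvPolynomial σ R} (hf : Inv p A W f) (hg : Inv p A W g) :
    Inv p A W (f * g) := by
  unfold Inv
  have h : tr W (f * g) - C (f * g) = tr W g * (tr W f - C f) + C f * (tr W g - C g) := by
    rw [map_mul, C_mul]; ring
  rw [h]
  exact Ideal.add_mem _ (Ideal.mul_mem_left _ _ hf) (Ideal.mul_mem_left _ _ hg)

lemma Inv.add {f g : MvPolynomial σ R} (hf : Inv p A W f) (hg : Inv p A W g) :
    Inv p A W (f + g) := by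
  unfold Inv
  have h : tr W (f + g) - C (f + g) = (tr W f - C f) + (tr W g - C g) := by
    rw [map_add, C_add]; ring
  rw [h]
  exact Ideal.add_mem _ hf hg

lemma inv_C (a : R) : Inv p A W (C a) := by
  unfold Inv
  rw [tr_C, sub_self]
  exact Ideal.zero_mem _

/-- The ring of invariants. -/
noncomputable def ring (k : Type u) [Field k] [Algebra k R] (p : ℕ) (A : τ → τ → R)
    (W : σ → τ → R) : Subalgebra k (MvPolynomial σ R) where
  carrier := {f | Inv p A W f}
  mul_mem' := fun hf hg => Inv.mul hf hg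
  add_mem' := fun hf hg => Inv.add hf hg
  algebraMap_mem' := fun c => inv_C (algebraMap k R c)

/-- The additive polynomials. -/
noncomputable def addP (p : ℕ) (n : σ → ℕ) (c : σ → (Σ j, Fin (n j)) → R) (j : σ) :
    MvPolynomial σ R := X j ^ p ^ n j - ∑ s, C (c j s) * X s.1 ^ p ^ s.2.1

variable [Fact p.Prime] [CharP R p]

lemma tr_pow (i : σ) (a : ℕ) : tr W (X i ^ p ^ a) =
    C (X i ^ p ^ a) + lin (C : R →+* MvPolynomial σ R) (W i) ^ p ^ a := by
  have hE : ExpChar (MvPolynomial τ (MvPolynomial σ R)) p :=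
    haveI : CharP (MvPolynomial τ (MvPolynomial σ R)) p := inferInstance
    inferInstance
  rw [map_pow, tr_X, add_pow_expChar_pow, C_pow]

lemma inv_addP {n : σ → ℕ} {c : σ → (Σ j, Fin (n j)) → R} {j : σ}
    (h : (Ph p A)^[n j] (W j) = ∑ s, c j s • (Ph p A)^[s.2.1] (W s.1)) :
    Inv p A W (addP p n c j) := by
  unfold Inv
  have h1 : tr W (addP p n c j) - C (addP p n c j) =
      lin (C : R →+* MvPolynomial σ R) (W j) ^ p ^ n j -
        ∑ s, C (C (c j s)) * lin (C : R →+* MvPolynomial σ R) (W s.1) ^ p ^ s.2.1 := by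
    unfold addP
    rw [map_sub, map_sum, tr_pow, C_sub, map_sum (C : MvPolynomial σ R →+* _)]
    have h2 : ∀ s : (Σ j, Fin (n j)), tr W (C (c j s) * X s.1 ^ p ^ s.2.1) =
        C (C (c j s) * X s.1 ^ p ^ s.2.1) +
          C (C (c j s)) * lin (C : R →+* MvPolynomial σ R) (W s.1) ^ p ^ s.2.1 := by
      intro s
      rw [map_mul, tr_C, tr_pow, C_mul]
      ring
    rw [Finset.sum_congr rfl fun s _ => h2 s, Finset.sum_add_distrib]
    ring
  have h2 : (0 : MvPolynomial τ (MvPolynomial σ R)) =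
      lin (C : R →+* MvPolynomial σ R) ((Ph p A)^[n j] (W j)) -
        ∑ s, C (C (c j s)) * lin (C : R →+* MvPolynomial σ R) ((Ph p A)^[s.2.1] (W s.1)) := by
    rw [h, lin_sum, ← Finset.sum_sub_distrib]
    symm
    refine Finset.sum_eq_zero fun s _ => ?_
    rw [lin_smul, sub_self]
  have h3 : tr W (addP p n c j) - C (addP p n c j) =
      (lin (C : R →+* MvPolynomial σ R) (W j) ^ p ^ n j -
        lin (C : R →+* MvPolynomial σ R) ((Ph p A)^[n j] (W j))) -
      ∑ s, C (C (c j s)) * (lin (C : R →+* MvPolynomial σ R) (W s.1) ^ p ^ s.2.1 -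
        lin (C : R →+* MvPolynomial σ R) ((Ph p A)^[s.2.1] (W s.1))) := by
    simp only [mul_sub, Finset.sum_sub_distrib]
    rw [h1]
    linear_combination -h2
  rw [h3]
  exact Ideal.sub_mem _ (lin_pow_iter _ A _ _) (Ideal.sum_mem _ fun s _ =>
    Ideal.mul_mem_left _ _ (lin_pow_iter _ A _ _))

omit [CharP R p] in
lemma ap_addP (n : σ → ℕ) (c : σ → (Σ j, Fin (n j)) → R) (j : σ) :
    Ap (fun i => p ^ (Finset.univ.sup n - n i)) (Finsupp.single j (p ^ n j)) (addP p n c j) := by
  have hp : p.Prime := Fact.out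
  have hw : ∀ (i : σ) (a : ℕ), wt (fun i => p ^ (Finset.univ.sup n - n i))
      (Finsupp.single i (p ^ a)) = p ^ (Finset.univ.sup n - n i + a) := by
    intro i a
    unfold wt
    rw [Finset.sum_eq_single i]
    · rw [Finsupp.single_eq_same, pow_add]
    · intro i' _ hi
      rw [Finsupp.single_eq_of_ne hi, mul_zero]
    · intro h; exact absurd (Finset.mem_univ i) h
  intro m hm
  have h3 : addP p n c j - monomial (Finsupp.single j (p ^ n j)) 1 =
      - ∑ s, C (c j s) * X s.1 ^ p ^ s.2.1 := by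
    unfold addP
    rw [X_pow_eq_monomial]
    ring
  rw [h3, coeff_neg, neg_ne_zero, coeff_sum] at hm
  obtain ⟨s, -, hs⟩ := Finset.exists_ne_zero_of_sum_ne_zero hm
  rw [coeff_C_mul, X_pow_eq_monomial, coeff_monomial] at hs
  have h5 : Finsupp.single s.1 (p ^ s.2.1) = m := by
    by_contra h6
    rw [if_neg h6, mul_zero] at hs
    exact hs rfl
  rw [← h5, hw, hw]
  refine Nat.pow_lt_pow_right hp.one_lt ?_
  have h6 : n j ≤ Finset.univ.sup n := Finset.le_sup (Finset.mem_univ j)
  have h7 : n s.1 ≤ Finset.univ.sup n := Finset.le_sup (Finset.mem_univ s.1)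
  have h8 := s.2.2
  omega

/-- The auxiliary polynomial. -/
noncomputable def Gz (q : σ → ℕ) (D : Finset (σ →₀ ℕ)) (T : (σ →₀ ℕ) → MvPolynomial σ R)
    (f : MvPolynomial σ R) : MvPolynomial σ (MvPolynomial σ R) :=
  ∑ d ∈ D, C (T d) * ∏ j, (C (X j) + X j) ^ (d j % q j) - C f

omit [Fact p.Prime] [CharP R p] in
lemma Gz_red {q : σ → ℕ} (hq : ∀ j, 0 < q j) (D : Finset (σ →₀ ℕ))
    (T : (σ →₀ ℕ) → MvPolynomial σ R) (f : MvPolynomial σ R) : Red q (Gz q D T f) := by
  classical
  intro m hm j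
  have hnt : Nontrivial (MvPolynomial σ R) := by
    by_contra h
    rw [not_nontrivial_iff_subsingleton] at h
    exact hm (Subsingleton.elim _ _)
  have h1 : m j ≤ degreeOf j (Gz q D T f) := monomial_le_degreeOf j (mem_support_iff.2 hm)
  refine lt_of_le_of_lt h1 ?_
  have h2 : ∀ d : σ →₀ ℕ, degreeOf j (C (T d) * ∏ i, (C (X i) + X i) ^ (d i % q i) :
      MvPolynomial σ (MvPolynomial σ R)) < q j := by
    intro d
    refine lt_of_le_of_lt (degreeOf_mul_le _ _ _) ?_
    rw [degreeOf_C, zero_add]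
    refine lt_of_le_of_lt (degreeOf_prod_le _ _ _) ?_
    refine lt_of_le_of_lt (b := d j % q j) ?_ (Nat.mod_lt _ (hq j))
    rw [Finset.sum_eq_single j]
    · refine (degreeOf_pow_le _ _ _).trans ?_
      have h3 : degreeOf j (C (X j) + X j : MvPolynomial σ (MvPolynomial σ R)) ≤ 1 := by
        refine (degreeOf_add_le _ _ _).trans ?_
        rw [degreeOf_C, degreeOf_X, if_pos rfl]
        exact max_le (Nat.zero_le _) le_rfl
      calc _ ≤ (d j % q j) * 1 := Nat.mul_le_mul_left _ h3
        _ = _ := mul_one _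
    · intro i _ hi
      refine Nat.le_zero.1 ((degreeOf_pow_le _ _ _).trans ?_)
      have h3 : degreeOf j (C (X i) + X i : MvPolynomial σ (MvPolynomial σ R)) = 0 := by
        refine Nat.le_zero.1 ((degreeOf_add_le _ _ _).trans ?_)
        rw [degreeOf_C, degreeOf_X, if_neg hi.symm, max_self]
      rw [h3, mul_zero]
    · intro h; exact absurd (Finset.mem_univ j) h
  unfold Gz
  refine lt_of_le_of_lt (degreeOf_sub_le _ _ _) (max_lt ?_ (by rw [degreeOf_C]; exact hq j))
  refine lt_of_le_of_lt (degreeOf_sum_le _ _ _) ?_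
  exact (Finset.sup_lt_iff (hq j)).2 fun d _ => h2 d

omit [Fact p.Prime] [CharP R p] in
lemma Gz_mem {q : σ → ℕ} {D : Finset (σ →₀ ℕ)} {T : (σ →₀ ℕ) → MvPolynomial σ R}
    {f : MvPolynomial σ R} (hf : f = ∑ d ∈ D, T d * ∏ j, X j ^ (d j % q j))
    (hT : ∀ d, Inv p A W (T d)) (hinv : Inv p A W f) :
    aeval (fun j => lin (C : R →+* MvPolynomial σ R) (W j)) (Gz q D T f) ∈
      JJ (C : R →+* MvPolynomial σ R) p A := by
  obtain ⟨U, hU⟩ : ∃ U : (σ →₀ ℕ) → MvPolynomial τ (MvPolynomial σ R), ∀ d, U d =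
      ∏ j, (C (X j) + lin (C : R →+* MvPolynomial σ R) (W j)) ^ (d j % q j) := ⟨_, fun _ => rfl⟩
  have h2 : tr W f = ∑ d ∈ D, tr W (T d) * U d := by
    conv_lhs => rw [hf]
    rw [map_sum]
    refine Finset.sum_congr rfl fun d _ => ?_
    rw [map_mul, map_prod, hU]
    congr 1
    refine Finset.prod_congr rfl fun j _ => ?_
    rw [map_pow, tr_X]
  have h3 : aeval (fun j => lin (C : R →+* MvPolynomial σ R) (W j)) (Gz q D T f) =
      ∑ d ∈ D, C (T d) * U d - C f := by
    unfold Gz
    rw [map_sub, map_sum, aeval_C]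
    congr 1
    refine Finset.sum_congr rfl fun d _ => ?_
    rw [map_mul, aeval_C, map_prod, hU]
    congr 1
    refine Finset.prod_congr rfl fun j _ => ?_
    rw [map_pow, map_add, aeval_C, aeval_X]
    rfl
  have h1 : ∑ d ∈ D, C (T d) * U d - C f =
      (tr W f - C f) - ∑ d ∈ D, (tr W (T d) - C (T d)) * U d := by
    rw [h2]
    simp only [sub_mul, Finset.sum_sub_distrib]
    abel
  rw [h3, h1]
  exact Ideal.sub_mem _ hinv (Ideal.sum_mem _ fun d _ => Ideal.mul_mem_right _ _ (hT d))

omit [Fact p.Prime] [CharP R p] in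
lemma Gz_eval {q : σ → ℕ} {D : Finset (σ →₀ ℕ)} {T : (σ →₀ ℕ) → MvPolynomial σ R}
    {f : MvPolynomial σ R} : aeval (fun j => - X j : σ → MvPolynomial σ R) (Gz q D T f) =
      ∑ d ∈ D, T d * ∏ j, (0 : MvPolynomial σ R) ^ (d j % q j) - f := by
  unfold Gz
  rw [map_sub, map_sum, aeval_C]
  congr 1
  refine Finset.sum_congr rfl fun d _ => ?_
  rw [map_mul, aeval_C, map_prod]
  congr 1
  refine Finset.prod_congr rfl fun j _ => ?_
  rw [map_pow, map_add, aeval_C, aeval_X]
  congr 1
  exact add_neg_cancel _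

end defs

section chart

variable {k E : Type u} [Field k] [Field E] [Algebra k E] {σ τ : Type} [Fintype σ]
  [DecidableEq σ] [Fintype τ] [DecidableEq τ] {p : ℕ} [Fact p.Prime] [CharP E p]
  {A : τ → τ → E} {W : σ → τ → E}

/-- The rings of invariants over the charts are polynomial rings. -/
theorem chart {n : σ → ℕ} {c : σ → (Σ j, Fin (n j)) → E}
    (hv : LinearIndependent E fun s : (Σ j, Fin (n j)) => (Ph p A)^[s.2.1] (W s.1))
    (h : ∀ j, (Ph p A)^[n j] (W j) = ∑ s, c j s • (Ph p A)^[s.2.1] (W s.1))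
    {C' : Subalgebra k E} (hc : ∀ j s, c j s ∈ C') (f : MvPolynomial σ E) :
    (f ∈ cf σ C' ∧ f ∈ ring k p A W) ↔ ∃ g ∈ cf σ C', f = aeval (addP p n c) g := by
  classical
  have hp : p.Prime := Fact.out
  have hq : ∀ j, 0 < p ^ n j := fun j => pow_pos hp.pos _
  have hPinv : ∀ j, addP p n c j ∈ ring k p A W := fun j => inv_addP (h j)
  have hPcf : ∀ j, addP p n c j ∈ cf σ C' := fun j =>
    Subalgebra.sub_mem _ (Subalgebra.pow_mem _ (X_mem_cf _ _) _) (Subalgebra.sum_mem _ fun s _ =>
      Subalgebra.mul_mem _ (C_mem_cf (hc j s)) (Subalgebra.pow_mem _ (X_mem_cf _ _) _))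
  constructor
  · rintro ⟨⟨F, hF⟩, hinv⟩
    have hF' : MvPolynomial.map (C'.val : C' →+* E) F = f := hF
    let c' : σ → (Σ j, Fin (n j)) → C' := fun j s => ⟨c j s, hc j s⟩
    obtain ⟨G, hG⟩ := exists_exp (P := addP p n c') (q := fun j => p ^ n j)
      (ω := fun i => p ^ (Finset.univ.sup n - n i)) (fun j => ap_addP n c' j) F
    have hmapP : ∀ j, MvPolynomial.map (C'.val : C' →+* E) (addP p n c' j) = addP p n c j := by
      intro j
      unfold addP
      rw [map_sub, map_pow, map_X, map_sum]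
      congr 1
      refine Finset.sum_congr rfl fun s _ => ?_
      rw [map_mul, map_C, map_pow, map_X]
      rfl
    let T : (σ →₀ ℕ) → MvPolynomial σ E := fun d =>
      C ((coeff d G : C') : E) * ∏ j, addP p n c j ^ (d j / p ^ n j)
    have hT : ∀ d, Inv p A W (T d) := by
      intro d
      have h1 : T d ∈ ring k p A W := Subalgebra.mul_mem _ (inv_C _)
        (Subalgebra.prod_mem _ fun j _ => Subalgebra.pow_mem _ (hPinv j) _)
      exact h1
    have hf : f = ∑ d ∈ G.support, T d * ∏ j, X j ^ (d j % p ^ n j) := by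
      rw [← hF', hG, map_sum]
      refine Finset.sum_congr rfl fun d _ => ?_
      rw [map_mul, map_mul, map_prod, map_prod, map_C, ← mul_assoc]
      congr 1
      · congr 1
        refine Finset.prod_congr rfl fun j _ => ?_
        rw [map_pow, hmapP]
      · refine Finset.prod_congr rfl fun j _ => ?_
        rw [map_pow, map_X]
    have hred := Gz_red hq G.support T f
    have hmem := Gz_mem (p := p) (A := A) (W := W) (q := fun j => p ^ n j) hf hT hinv
    have hG0 := indep_pow (p := p) (C : E →+* MvPolynomial σ E) A W n hv _ hred hmem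
    have h1 := congrArg (aeval (fun j => - X j : σ → MvPolynomial σ E)) hG0
    have h2 := Gz_eval (q := fun j => p ^ n j) (D := G.support) (T := T) (f := f)
    rw [h2, map_zero, sub_eq_zero] at h1
    refine ⟨∑ d ∈ G.support, C (((coeff d G : C') : E) * ∏ j, (0 : E) ^ (d j % p ^ n j)) *
      ∏ j, X j ^ (d j / p ^ n j), ?_, ?_⟩
    · refine Subalgebra.sum_mem _ fun d _ => Subalgebra.mul_mem _ (C_mem_cf ?_)
        (Subalgebra.prod_mem _ fun j _ => Subalgebra.pow_mem _ (X_mem_cf _ _) _)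
      exact C'.mul_mem (coeff d G).2 (C'.prod_mem fun j _ => C'.pow_mem C'.zero_mem _)
    · rw [← h1, map_sum]
      refine Finset.sum_congr rfl fun d _ => ?_
      rw [map_mul, aeval_C, map_prod, algebraMap_eq, C_mul, map_prod]
      have h4 : ∏ j, C ((0 : E) ^ (d j % p ^ n j)) =
          ∏ j, (0 : MvPolynomial σ E) ^ (d j % p ^ n j) := by
        refine Finset.prod_congr rfl fun j _ => ?_
        rw [C_pow, C_0]
      have h5 : ∏ j, aeval (addP p n c) (X j ^ (d j / p ^ n j) : MvPolynomial σ E) =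
          ∏ j, addP p n c j ^ (d j / p ^ n j) := by
        refine Finset.prod_congr rfl fun j _ => ?_
        rw [map_pow, aeval_X]
      rw [h4, h5]
      change C _ * _ * _ = _
      ring
  · rintro ⟨g, hg, rfl⟩
    refine ⟨aeval_mem_cf hPcf hg, ?_⟩
    have key : ∀ g : MvPolynomial σ E, aeval (addP p n c) g ∈ ring k p A W := by
      intro g
      induction g using MvPolynomial.induction_on with
      | C a => rw [aeval_C]; exact inv_C a
      | add f g hf hg => rw [map_add]; exact Subalgebra.add_mem _ hf hg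
      | mul_X f j hf => rw [map_mul, aeval_X]; exact Subalgebra.mul_mem _ hf (hPinv j)
    exact key g

end chart

end Pool.Agent.V11261.GK
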