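import Mathlib

set_option autoImplicit false
set_option linter.unusedVariables false
set_option linter.unusedSectionVars false

open MvPolynomial

universe u v

namespace Pool.Agent.V11261.GK

section

variable {R : Type u} [CommRing R] {σ : Type v} [Fintype σ] [DecidableEq σ] (ω : σ → ℕ)

/-- The weight of a monomial. -/
def wt (m : σ →₀ ℕ) : ℕ := ∑ j, ω j * m j

omit [DecidableEq σ] in
lemma wt_add (a b : σ →₀ ℕ) : wt ω (a + b) = wt ω a + wt ω b := by
  unfold wt
  rw [← Finset.sum_add_distrib]
  refine Finset.sum_congr rfl fun j _ => ?_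
  rw [Finsupp.add_apply]; ring

/-- All monomials have weight at most `D`. -/
def Le (D : ℕ) (f : MvPolynomial σ R) : Prop := ∀ m, coeff m f ≠ 0 → wt ω m ≤ D

/-- All monomials have weight less than `D`. -/
def Lo (D : ℕ) (f : MvPolynomial σ R) : Prop := ∀ m, coeff m f ≠ 0 → wt ω m < D

variable {ω}

omit [DecidableEq σ] in
lemma Lo.add {D : ℕ} {f g : MvPolynomial σ R} (hf : Lo ω D f) (hg : Lo ω D g) :
    Lo ω D (f + g) := by
  intro m hm
  rw [coeff_add] at hm
  by_cases h : coeff m f = 0
  · exact hg m fun h' => hm (by rw [h, h', add_zero])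
  · exact hf m h

omit [DecidableEq σ] in
lemma Lo.sum {ι : Type*} {D : ℕ} {s : Finset ι} {f : ι → MvPolynomial σ R}
    (h : ∀ i ∈ s, Lo ω D (f i)) : Lo ω D (∑ i ∈ s, f i) := by
  classical
  induction s using Finset.induction_on with
  | empty => intro m hm; simp at hm
  | insert a s ha ih =>
    rw [Finset.sum_insert ha]
    exact (h a (Finset.mem_insert_self _ _)).add
      (ih fun i hi => h i (Finset.mem_insert_of_mem hi))

lemma Lo.mul_left {D D' : ℕ} {f g : MvPolynomial σ R} (hf : Lo ω D f) (hg : Le ω D' g) :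
    Lo ω (D + D') (f * g) := by
  intro m hm
  rw [coeff_mul] at hm
  obtain ⟨x, hx, hx0⟩ := Finset.exists_ne_zero_of_sum_ne_zero hm
  have h1 := hf x.1 (left_ne_zero_of_mul hx0)
  have h2 := hg x.2 (right_ne_zero_of_mul hx0)
  rw [← Finset.HasAntidiagonal.mem_antidiagonal.1 hx, wt_add]
  omega

lemma Lo.mul_right {D D' : ℕ} {f g : MvPolynomial σ R} (hf : Le ω D f) (hg : Lo ω D' g) :
    Lo ω (D + D') (f * g) := by
  rw [mul_comm, add_comm]
  exact Lo.mul_left hg hf

/-- The leading monomial is `X ^ d`. -/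
def Ap (ω : σ → ℕ) (d : σ →₀ ℕ) (f : MvPolynomial σ R) : Prop :=
  Lo ω (wt ω d) (f - monomial d 1)

lemma Ap.le {d : σ →₀ ℕ} {f : MvPolynomial σ R} (h : Ap ω d f) : Le ω (wt ω d) f := by
  intro m hm
  by_cases hmd : m = d
  · rw [hmd]
  · refine (h m ?_).le
    rwa [coeff_sub, coeff_monomial, if_neg (Ne.symm hmd), sub_zero]

lemma ap_monomial (d : σ →₀ ℕ) : Ap ω d (monomial d (1 : R)) := by
  intro m hm
  rw [sub_self, coeff_zero] at hm
  exact absurd rfl hm

lemma Ap.mul {a b : σ →₀ ℕ} {f g : MvPolynomial σ R} (hf : Ap ω a f) (hg : Ap ω b g) :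
    Ap ω (a + b) (f * g) := by
  unfold Ap
  have h : f * g - monomial (a + b) 1 = (f - monomial a 1) * g +
      monomial a 1 * (g - monomial b 1) := by
    have h1 : (monomial (a + b) (1 : R)) = monomial a 1 * monomial b 1 := by
      rw [monomial_mul, one_mul]
    rw [h1]; ring
  rw [h, wt_add]
  exact (Lo.mul_left hf hg.le).add (Lo.mul_right (ap_monomial a).le hg)

lemma Ap.pow {a : σ →₀ ℕ} {f : MvPolynomial σ R} (hf : Ap ω a f) (n : ℕ) :
    Ap ω (n • a) (f ^ n) := by
  induction n with
  | zero => rw [zero_smul, pow_zero]; exact ap_monomial 0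
  | succ n ih => rw [pow_succ, succ_nsmul]; exact ih.mul hf

lemma Ap.prod {ι : Type*} (s : Finset ι) {a : ι → σ →₀ ℕ} {f : ι → MvPolynomial σ R}
    (h : ∀ i, Ap ω (a i) (f i)) : Ap ω (∑ i ∈ s, a i) (∏ i ∈ s, f i) := by
  classical
  induction s using Finset.induction_on with
  | empty => exact ap_monomial 0
  | insert x s hx ih => rw [Finset.sum_insert hx, Finset.prod_insert hx]; exact (h x).mul ih

variable (q : σ → ℕ) (P : σ → MvPolynomial σ R)

/-- The basis. -/
noncomputable def bb (d : σ →₀ ℕ) : MvPolynomial σ R :=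
  ∏ j, (P j ^ (d j / q j) * X j ^ (d j % q j))

variable {q P} (hP : ∀ j, Ap ω (Finsupp.single j (q j)) (P j))

include hP in
lemma ap_bb (d : σ →₀ ℕ) : Ap ω d (bb q P d) := by
  have h1 : ∀ j, Ap ω (Finsupp.single j (d j)) (P j ^ (d j / q j) * X j ^ (d j % q j)) := by
    intro j
    have h2 := ((hP j).pow (d j / q j)).mul
      ((ap_monomial (R := R) (ω := ω) (Finsupp.single j 1)).pow (d j % q j))
    have h3 : (d j / q j) • Finsupp.single j (q j) + (d j % q j) • Finsupp.single j 1 =
        Finsupp.single j (d j) := by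
      rw [Finsupp.smul_single, Finsupp.smul_single, ← Finsupp.single_add]
      congr 1
      rw [smul_eq_mul, smul_eq_mul, mul_one, Nat.div_add_mod']
    rw [h3] at h2
    exact h2
  have h2 := Ap.prod Finset.univ h1
  rw [Finsupp.univ_sum_single] at h2
  exact h2

/-- The linear map `X ^ d ↦ b d`. -/
noncomputable def Tr (q : σ → ℕ) (P : σ → MvPolynomial σ R) :
    MvPolynomial σ R →ₗ[R] MvPolynomial σ R :=
  (basisMonomials σ R).constr R (bb q P)

lemma Tr_monomial (d : σ →₀ ℕ) (c : R) : Tr q P (monomial d c) = c • bb q P d := by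
  have h1 : (monomial d c : MvPolynomial σ R) = c • basisMonomials σ R d := by
    rw [coe_basisMonomials, smul_monomial, smul_eq_mul, mul_one]
  rw [h1, map_smul]
  congr 1
  exact (basisMonomials σ R).constr_basis R _ _

lemma Tr_eq (f : MvPolynomial σ R) : Tr q P f = ∑ d ∈ f.support, coeff d f • bb q P d := by
  conv_lhs => rw [f.as_sum]
  rw [map_sum]
  exact Finset.sum_congr rfl fun d _ => Tr_monomial d _

include hP in
lemma Tr_inj {f : MvPolynomial σ R} (h : Tr q P f = 0) : f = 0 := by
  by_contra hf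
  obtain ⟨d0, hd0, hmax⟩ := Finset.exists_max_image f.support (wt ω) (support_nonempty.2 hf)
  have h1 : coeff d0 (Tr q P f) = coeff d0 f := by
    rw [Tr_eq, coeff_sum, Finset.sum_eq_single d0]
    · rw [coeff_smul]
      have h2 : coeff d0 (bb q P d0) = 1 := by
        by_contra h3
        have h4 := ap_bb hP d0 d0 (by
          rw [coeff_sub, coeff_monomial, if_pos rfl]
          exact sub_ne_zero.2 h3)
        exact lt_irrefl _ h4
      rw [h2, smul_eq_mul, mul_one]
    · intro d hd hne
      rw [coeff_smul]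
      have h2 : coeff d0 (bb q P d) = 0 := by
        by_contra h3
        have h4 := ap_bb hP d d0 (by
          rw [coeff_sub, coeff_monomial, if_neg hne, sub_zero]
          exact h3)
        exact absurd (hmax d hd) (not_le.2 h4)
      rw [h2, smul_zero]
    · intro h2
      exact absurd hd0 h2
  rw [h, coeff_zero] at h1
  exact (mem_support_iff.1 hd0) h1.symm

include hP in
lemma Tr_surj (f : MvPolynomial σ R) : ∃ g, Tr q P g = f := by
  have key : ∀ (D : ℕ) (d : σ →₀ ℕ), wt ω d < D → ∃ g, Tr q P g = monomial d (1 : R) := by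
    intro D
    induction D with
    | zero => intro d hd; exact absurd hd (Nat.not_lt_zero _)
    | succ D ih =>
      intro d hd
      have h1 : ∀ f : MvPolynomial σ R, Lo ω D f → ∃ g, Tr q P g = f := by
        intro f hf
        have h2 : ∀ m ∈ f.support, ∃ g, Tr q P g = monomial m (1 : R) := fun m hm =>
          ih m (hf m (mem_support_iff.1 hm))
        choose! g hg using h2
        refine ⟨∑ m ∈ f.support, coeff m f • g m, ?_⟩
        rw [map_sum]
        conv_rhs => rw [f.as_sum]
        refine Finset.sum_congr rfl fun m hm => ?_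
        rw [map_smul, hg m hm, smul_monomial, smul_eq_mul, mul_one]
      obtain ⟨g, hg⟩ := h1 (bb q P d - monomial d 1) (fun m hm =>
        lt_of_lt_of_le (ap_bb hP d m hm) (Nat.lt_succ_iff.1 hd))
      refine ⟨monomial d 1 - g, ?_⟩
      rw [map_sub, hg, Tr_monomial, one_smul, sub_sub_cancel]
  have h2 : ∀ m : σ →₀ ℕ, ∃ g, Tr q P g = monomial m (1 : R) := fun m =>
    key _ m (Nat.lt_succ_self _)
  choose g hg using h2
  refine ⟨∑ m ∈ f.support, coeff m f • g m, ?_⟩
  rw [map_sum]
  conv_rhs => rw [f.as_sum]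
  refine Finset.sum_congr rfl fun m hm => ?_
  rw [map_smul, hg m, smul_monomial, smul_eq_mul, mul_one]

/-- Reduced polynomials. -/
def Red (q : σ → ℕ) (f : MvPolynomial σ R) : Prop := ∀ m, coeff m f ≠ 0 → ∀ j, m j < q j

lemma bb_red {d : σ →₀ ℕ} (h : ∀ j, d j < q j) : bb q P d = monomial d 1 := by
  unfold bb
  rw [monomial_eq, C_1, one_mul, Finsupp.prod_fintype _ _ (fun i => pow_zero _)]
  refine Finset.prod_congr rfl fun j _ => ?_
  rw [Nat.div_eq_of_lt (h j), Nat.mod_eq_of_lt (h j), pow_zero, one_mul]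

lemma Tr_red {f : MvPolynomial σ R} (h : Red q f) : Tr q P f = f := by
  rw [Tr_eq]
  conv_rhs => rw [f.as_sum]
  refine Finset.sum_congr rfl fun d hd => ?_
  rw [bb_red (h d (mem_support_iff.1 hd)), smul_monomial, smul_eq_mul, mul_one]

lemma bb_add (hq : ∀ j, 0 < q j) (d : σ →₀ ℕ) (i : σ) :
    bb q P (d + Finsupp.single i (q i)) = bb q P d * P i := by
  have h1 : bb q P (d + Finsupp.single i (q i)) =
      ∏ j, ((P j ^ (d j / q j) * X j ^ (d j % q j)) * (if j = i then P i else 1)) := by
    unfold bb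
    refine Finset.prod_congr rfl fun j _ => ?_
    by_cases hj : j = i
    · subst hj
      rw [if_pos rfl, Finsupp.add_apply, Finsupp.single_eq_same, Nat.add_div_right _ (hq j),
        Nat.add_mod_right, pow_succ]
      ring
    · rw [if_neg hj, Finsupp.add_apply, Finsupp.single_eq_of_ne hj, add_zero, mul_one]
  rw [h1, Finset.prod_mul_distrib]
  congr 1
  rw [Finset.prod_ite_eq' Finset.univ i]
  simp

lemma Tr_mul (hq : ∀ j, 0 < q j) (f : MvPolynomial σ R) (i : σ) :
    Tr q P (f * X i ^ q i) = Tr q P f * P i := by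
  induction f using MvPolynomial.induction_on' with
  | monomial d c =>
    rw [X_pow_eq_monomial, monomial_mul, mul_one, Tr_monomial, Tr_monomial, bb_add hq,
      smul_mul_assoc]
  | add f g hf hg => rw [add_mul, map_add, hf, hg, map_add, add_mul]

include hP in
/-- Reduced polynomials in the ideal vanish. -/
theorem red_zero (hq : ∀ j, 0 < q j) {f : MvPolynomial σ R} (h : Red q f)
    (hf : f ∈ Ideal.span (Set.range P)) : f = 0 := by
  obtain ⟨c, hc⟩ := (Ideal.mem_span_range_iff_exists_fun).1 hf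
  choose g hg using fun i => Tr_surj hP (c i)
  have h1 : Tr q P (f - ∑ i, g i * X i ^ q i) = 0 := by
    rw [map_sub, Tr_red h, map_sum]
    have h2 : ∑ i, Tr q P (g i * X i ^ q i) = f := by
      rw [← hc]
      refine Finset.sum_congr rfl fun i _ => ?_
      rw [Tr_mul hq, hg]
    rw [h2, sub_self]
  have h2 := sub_eq_zero.1 (Tr_inj hP h1)
  ext m
  rw [coeff_zero]
  by_contra h3
  have h4 : coeff m (∑ i, g i * X i ^ q i) = 0 := by
    rw [coeff_sum]
    refine Finset.sum_eq_zero fun i _ => ?_
    rw [X_pow_eq_monomial, coeff_mul_monomial', if_neg]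
    intro h5
    have h6 := h5 i
    rw [Finsupp.single_eq_same] at h6
    exact absurd h6 (not_le.2 (h m h3 i))
  rw [← h2] at h4
  exact h3 h4

include hP in
/-- Reduction. -/
theorem exists_red (hq : ∀ j, 0 < q j) (f : MvPolynomial σ R) :
    ∃ r, Red q r ∧ f - r ∈ Ideal.span (Set.range P) := by
  classical
  obtain ⟨g, rfl⟩ := Tr_surj hP f
  refine ⟨∑ d ∈ g.support.filter (fun d => ∀ j, d j < q j), monomial d (coeff d g), ?_, ?_⟩
  · intro m hm
    rw [coeff_sum] at hm
    obtain ⟨d, hd, hd0⟩ := Finset.exists_ne_zero_of_sum_ne_zero hm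
    rw [coeff_monomial] at hd0
    have h1 : d = m := by
      by_contra h2
      rw [if_neg h2] at hd0
      exact hd0 rfl
    rw [← h1]
    exact (Finset.mem_filter.1 hd).2
  · rw [Tr_eq, ← Finset.sum_filter_add_sum_filter_not g.support (fun d => ∀ j, d j < q j)]
    have h1 : ∑ d ∈ g.support.filter (fun d => ∀ j, d j < q j), coeff d g • bb q P d =
        ∑ d ∈ g.support.filter (fun d => ∀ j, d j < q j), monomial d (coeff d g) := by
      refine Finset.sum_congr rfl fun d hd => ?_
      rw [bb_red (Finset.mem_filter.1 hd).2, smul_monomial, smul_eq_mul, mul_one]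
    rw [h1, add_sub_cancel_left]
    refine Ideal.sum_mem _ fun d hd => ?_
    have h2 := (Finset.mem_filter.1 hd).2
    push Not at h2
    obtain ⟨j, hj⟩ := h2
    rw [smul_eq_C_mul]
    refine Ideal.mul_mem_left _ _ ?_
    unfold bb
    rw [← Finset.mul_prod_erase Finset.univ _ (Finset.mem_univ j)]
    refine Ideal.mul_mem_right _ _ (Ideal.mul_mem_right _ _ ?_)
    refine Ideal.pow_mem_of_mem _ (Ideal.subset_span (Set.mem_range_self j)) _ ?_
    exact Nat.div_pos hj (hq j)

include hP in
/-- The expansion. -/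
theorem exists_exp (f : MvPolynomial σ R) : ∃ g : MvPolynomial σ R,
    f = ∑ d ∈ g.support, C (coeff d g) *
      ((∏ j, P j ^ (d j / q j)) * ∏ j, X j ^ (d j % q j)) := by
  obtain ⟨g, rfl⟩ := Tr_surj hP f
  refine ⟨g, ?_⟩
  rw [Tr_eq]
  refine Finset.sum_congr rfl fun d _ => ?_
  rw [smul_eq_C_mul, bb, Finset.prod_mul_distrib]

include hP in
/-- The algebraic independence. -/
theorem aeval_inj (hq : ∀ j, 0 < q j) :
    Function.Injective (aeval P : MvPolynomial σ R →ₐ[R] MvPolynomial σ R) := by
  rw [injective_iff_map_eq_zero]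
  intro g hg
  let e : (σ →₀ ℕ) → (σ →₀ ℕ) := fun α => Finsupp.equivFunOnFinite.symm fun j => q j * α j
  have he : Function.Injective e := by
    intro a b hab
    ext j
    have h1 := DFunLike.congr_fun hab j
    exact Nat.eq_of_mul_eq_mul_left (hq j) h1
  have h1 : ∀ α, bb q P (e α) = ∏ j, P j ^ α j := by
    intro α
    unfold bb
    refine Finset.prod_congr rfl fun j _ => ?_
    have h2 : (e α) j = q j * α j := rfl
    rw [h2, Nat.mul_div_cancel_left _ (hq j), Nat.mul_mod_right, pow_zero, mul_one]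
  have h2 : Tr q P (∑ α ∈ g.support, monomial (e α) (coeff α g)) = 0 := by
    rw [map_sum, ← hg]
    conv_rhs => rw [g.as_sum, map_sum]
    refine Finset.sum_congr rfl fun α _ => ?_
    rw [Tr_monomial, h1, aeval_monomial, Finsupp.prod_fintype _ _ (fun i => pow_zero _),
      algebraMap_eq, smul_eq_C_mul]
  have h3 := Tr_inj hP h2
  ext α
  rw [coeff_zero]
  have h4 := congrArg (coeff (e α)) h3
  rw [coeff_zero, coeff_sum] at h4
  by_cases hα : α ∈ g.support
  · rw [Finset.sum_eq_single α, coeff_monomial, if_pos rfl] at h4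
    · exact h4
    · intro β _ hβ
      rw [coeff_monomial, if_neg fun h => hβ (he h)]
    · intro h; exact absurd hα h
  · exact notMem_support_iff.1 hα

end

end Pool.Agent.V11261.GK
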